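import Pool.Agent.W434.BW.StmC
import Pool.Agent.W434.BW.Basic

/-! Project BW, part C: dictionary between clones and algebras. -/

set_option autoImplicit false

namespace Pool.Agent.W392.BW.Clo

open Pool.Agent.W434.BW

theorem c1 (A : Type) (E : Ops A) (hE : IsCl E) (k : ℕ) (t : Tm (opAr E) (Fin k)) :
    (fun x : Fin k → A => t.ev (clA E) x) ∈ E k := by
  induction t with
  | var i => exact hE.1 k i
  | app ω t ih => exact hE.2 ω.1 k ω.2.1 (fun i x => (t i).ev (clA E) x) ω.2.2 ih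

theorem c2 (A : Type) (E : Ops A) (P : Set A) : Sub (clA E) P ↔ ClSub E P := by
  constructor
  · intro h k f hf x hx
    exact h (⟨k, ⟨f, hf⟩⟩ : OpSym E) x hx
  · intro h ω x hx
    exact h ω.1 ω.2.1 ω.2.2 x hx

theorem c3 (A : Type) (E : Ops A) (R : A → A → Prop) :
    Rel (clA E) (clA E) R ↔ Inv2 E {p : A × A | R p.1 p.2} := by
  constructor
  · intro h k f hf x y hxy
    exact h (⟨k, ⟨f, hf⟩⟩ : OpSym E) x y hxy
  · intro h ω x y hxy
    exact h ω.1 ω.2.1 ω.2.2 x y hxy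

theorem tm3_ev (A : Type) (E : Ops A) (u : (Fin 3 → A) → A) (hu : u ∈ E 3) (x : Fin 3 → A) :
    (tm3 E u hu).ev (clA E) x = u x := rfl

theorem c4 (A : Type) (E : Ops A) (hE : IdCl E) (u : (Fin 3 → A) → A) (hu : u ∈ E 3)
    (h : ∀ x y : A, u ![y, x, x] = u ![x, y, x] ∧ u ![x, y, x] = u ![x, x, y]) :
    Nice (tm3 E u hu) (clA E) := by
  refine ⟨fun ω x => hE ω.1 ω.2.1 ω.2.2 x, fun x y => ?_⟩
  rw [tm3_ev, tm3_ev, tm3_ev]
  exact h x y

theorem c5 (A : Type) (E : Ops A) (hE : IsCl E) (C P : Set A) :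
    (∃ t, RAbs (clA E) t C P) ↔ (∃ t ∈ E 3, Maj3 t C P) := by
  constructor
  · rintro ⟨t, ht⟩
    exact ⟨fun x => t.ev (clA E) x, c1 A E hE 3 t, ht⟩
  · rintro ⟨t, ht, h⟩
    exact ⟨tm3 E t ht, h⟩

theorem c6 (A : Type) (E : Ops A) (h : MinBW E) : IdCl E := by
  obtain ⟨hcl, ⟨v, hv, w, hw, hl⟩, hmin⟩ := h
  let F : Ops A := fun k => {f | f ∈ E k ∧ ∀ a : A, f (fun _ => a) = a}
  have hF : IsCl F := by
    refine ⟨fun k i => ⟨hcl.1 k i, fun a => rfl⟩, ?_⟩
    intro k m f g hf hg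
    refine ⟨hcl.2 k m f g hf.1 fun i => (hg i).1, fun a => ?_⟩
    have : (fun i => g i (fun _ => a)) = fun _ => a := funext fun i => (hg i).2 a
    show f (fun i => g i (fun _ => a)) = a
    rw [this, hf.2]
  have e3 : ∀ a : A, (fun _ => a : Fin 3 → A) = ![a, a, a] := by
    intro a; funext i; fin_cases i <;> rfl
  have e4 : ∀ a : A, (fun _ => a : Fin 4 → A) = ![a, a, a, a] := by
    intro a; funext i; fin_cases i <;> rfl
  have hFE := hmin F hF ⟨v, ⟨hv, fun a => by rw [e3]; exact hl.1 a⟩, w,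
    ⟨hw, fun a => by rw [e4]; exact hl.2.1 a⟩, hl⟩ (fun k f hf => hf.1)
  intro k f hf a
  rw [← hFE] at hf
  exact hf.2 a

theorem c7 (A : Type) (E : Ops A) (C P : Set A) (hE : IsCl E) : IsCl (GC E C P) := by
  refine ⟨fun k i => ⟨hE.1 k i, fun x y h => h i⟩, ?_⟩
  intro k m f g hf hg
  refine ⟨hE.2 k m f g hf.1 fun i => (hg i).1, fun x y h => ?_⟩
  exact hf.2 _ _ fun i => (hg i).2 x y h

theorem c8' (A : Type) (E F : Ops A) (hE : IsCl E) (h : ∀ R, Inv2 E R → Inv2 F R)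
    (k : ℕ) (x y : Fin k → A) (c d : A) (hg : ∃ g ∈ F k, g x = c ∧ g y = d) :
    ∃ g ∈ E k, g x = c ∧ g y = d := by
  obtain ⟨g, hg, rfl, rfl⟩ := hg
  have h1 : Inv2 E {p : A × A | ∃ g ∈ E k, g x = p.1 ∧ g y = p.2} := by
    intro m f hf z z' hz
    choose g' hg' using hz
    refine ⟨fun u => f (fun i => g' i u), hE.2 m k f g' hf fun i => (hg' i).1, ?_, ?_⟩
    · show f (fun i => g' i x) = f z
      congr 1
      funext i
      exact (hg' i).2.1
    · show f (fun i => g' i y) = f z'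
      congr 1
      funext i
      exact (hg' i).2.2
  exact h _ h1 k g hg x y fun i => ⟨fun u => u i, hE.1 k i, rfl, rfl⟩

theorem clo : S_clo := by
  refine ⟨c1, c2, c3, c4, c5, c6, c7, ?_⟩
  intro A E F hE hF h k x y c d
  exact ⟨c8' A F E hF (fun R => (h R).2) k x y c d, c8' A E F hE (fun R => (h R).1) k x y c d⟩

end Pool.Agent.W392.BW.Clo
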